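import Mathlib
import Pool.Agent.Lib.MP_938ce2_ag_h60.GDefs

/-!
# Tate classes of bounded codimension on products of abelian varieties of CM type
-/

set_option autoImplicit false

namespace Pool.Agent.Lib.MP_938ce2_ag_h65

open Pool.Agent.Lib.MP_938ce2_ag_h85 (GeneratedBy Coh)
open Pool.Agent.Lib.MP_938ce2_ag_h60 (TateClass)

/-- On every power of `A` the Tate classes of codimension at most `J` are generated by those of
codimension one. -/
def GeneratedUpTo (Γ : Type) [Group Γ] [Fintype Γ] {X : Type} [MulAction Γ X] (J : ℕ)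
    (Φ : Finset X) : Prop :=
  ∀ (F : Type) [Field F] [CharZero F] (n j : ℕ) (x : Coh F X n),
    j ≤ J → TateClass F Γ Φ n j x → GeneratedBy (fun y => TateClass F Γ Φ n 1 y) x

end Pool.Agent.Lib.MP_938ce2_ag_h65
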