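import Mathlib

/-!
A Littlewood-Offord bound for subset sums, and a bound for the central binomial coefficient.
-/

set_option autoImplicit false

namespace Pool.Agent.Lib.MP_938ce2_ag_h65

open Finset

/-- the number of subsets of `N` with a given sum of nonzero integers -/
theorem card_subset_sum_le {α : Type} [DecidableEq α] (N : Finset α) (f : α → ℤ)
    (hf : ∀ x ∈ N, f x ≠ 0) (t : ℤ) :
    (N.powerset.filter (fun E => ∑ x ∈ E, f x = t)).card ≤ N.card.choose (N.card / 2) := by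
  classical
  set Ψ : Finset α → Finset {x // x ∈ N} :=
    fun E => Finset.univ.filter (fun x : {x // x ∈ N} => ((x : α) ∈ E ↔ 0 < f x)) with hΨ
  have hmem : ∀ (E : Finset α) (x : {x // x ∈ N}), x ∈ Ψ E ↔ ((x : α) ∈ E ↔ 0 < f x) := by
    intro E x
    simp [hΨ]
  have hsum : ∀ E ⊆ N, ∑ x ∈ E, f x =
      ∑ x : {x // x ∈ N}, (if x ∈ Ψ E then max (f x) 0 else min (f x) 0) := by
    intro E hE
    have h1 : ∑ x ∈ E, f x = ∑ x ∈ N, (if x ∈ E then f x else 0) := by
      rw [← Finset.sum_filter]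
      congr 1
      ext x
      simp only [Finset.mem_filter]
      exact ⟨fun h => ⟨hE h, h⟩, fun h => h.2⟩
    rw [h1, ← Finset.sum_coe_sort N (fun x => if x ∈ E then f x else 0)]
    refine Finset.sum_congr rfl fun x _ => ?_
    have hx := hf x x.2
    by_cases h2 : (x : α) ∈ E <;> by_cases h3 : 0 < f x
    · rw [if_pos h2, if_pos ((hmem E x).mpr (iff_of_true h2 h3)), max_eq_left h3.le]
    · rw [if_pos h2, if_neg (fun h => h3 (((hmem E x).mp h).mp h2)), min_eq_left (by omega)]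
    · rw [if_neg h2, if_neg (fun h => h2 (((hmem E x).mp h).mpr h3)), min_eq_right h3.le]
    · rw [if_neg h2, if_pos ((hmem E x).mpr (iff_of_false h2 h3)), max_eq_right (by omega)]
  have hinj : Set.InjOn Ψ (N.powerset.filter (fun E => ∑ x ∈ E, f x = t) : Finset (Finset α)) := by
    intro E hE E' hE' h
    rw [Finset.mem_coe, Finset.mem_filter, Finset.mem_powerset] at hE hE'
    ext x
    by_cases hx : x ∈ N
    · have h1 := hmem E ⟨x, hx⟩
      have h2 := hmem E' ⟨x, hx⟩
      rw [h] at h1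
      have h3 := h1.symm.trans h2
      dsimp only at h3
      tauto
    · exact iff_of_false (fun h => hx (hE.1 h)) (fun h => hx (hE'.1 h))
  rw [← Finset.card_image_of_injOn hinj, show N.card = Fintype.card {x // x ∈ N} by simp]
  apply IsAntichain.sperner
  intro A hA B hB hne hsub
  rw [Finset.mem_coe, Finset.mem_image] at hA hB
  obtain ⟨E, hE, rfl⟩ := hA
  obtain ⟨E', hE', rfl⟩ := hB
  rw [Finset.mem_filter, Finset.mem_powerset] at hE hE'
  obtain ⟨x, hx, hx'⟩ : ∃ x ∈ Ψ E', x ∉ Ψ E := by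
    by_contra hcon
    push Not at hcon
    exact hne (Finset.Subset.antisymm hsub hcon)
  have h1 : ∑ x : {x // x ∈ N}, (if x ∈ Ψ E then max (f x) 0 else min (f x) 0) <
      ∑ x : {x // x ∈ N}, (if x ∈ Ψ E' then max (f x) 0 else min (f x) 0) := by
    refine Finset.sum_lt_sum ?_ ⟨x, Finset.mem_univ _, ?_⟩
    · intro y _
      by_cases hy : y ∈ Ψ E
      · rw [if_pos hy, if_pos (hsub hy)]
      · rw [if_neg hy]
        split_ifs
        · exact min_le_max
        · exact le_rfl
    · rw [if_neg hx', if_pos hx]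
      exact min_lt_max.mpr (hf x x.2)
  rw [← hsum E hE.1, ← hsum E' hE'.1, hE.2, hE'.2] at h1
  exact lt_irrefl _ h1

theorem centralBinom_sq_le (m : ℕ) : (Nat.centralBinom m) ^ 2 * (3 * m + 1) ≤ 16 ^ m := by
  induction m with
  | zero => simp
  | succ m ih =>
    have h := Nat.succ_mul_centralBinom_succ m
    have h1 : (m + 1) ^ 2 * (Nat.centralBinom (m + 1) ^ 2 * (3 * (m + 1) + 1))
        ≤ (m + 1) ^ 2 * 16 ^ (m + 1) := by
      calc (m + 1) ^ 2 * (Nat.centralBinom (m + 1) ^ 2 * (3 * (m + 1) + 1))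
          = ((m + 1) * Nat.centralBinom (m + 1)) ^ 2 * (3 * m + 4) := by ring
        _ = (2 * (2 * m + 1) * Nat.centralBinom m) ^ 2 * (3 * m + 4) := by rw [h]
        _ = Nat.centralBinom m ^ 2 * (4 * ((2 * m + 1) ^ 2 * (3 * m + 4))) := by ring
        _ ≤ Nat.centralBinom m ^ 2 * (4 * (4 * (m + 1) ^ 2 * (3 * m + 1))) :=
            Nat.mul_le_mul_left _ (Nat.mul_le_mul_left _ (by nlinarith))
        _ = 16 * (m + 1) ^ 2 * (Nat.centralBinom m ^ 2 * (3 * m + 1)) := by ring
        _ ≤ 16 * (m + 1) ^ 2 * 16 ^ m := by gcongr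
        _ = (m + 1) ^ 2 * 16 ^ (m + 1) := by ring
    exact Nat.le_of_mul_le_mul_left h1 (by positivity)

theorem choose_half_sq_le (k : ℕ) : (k.choose (k / 2)) ^ 2 * (3 * k + 2) ≤ 2 * 4 ^ k := by
  rcases Nat.even_or_odd' k with ⟨m, rfl | rfl⟩
  · have h := centralBinom_sq_le m
    rw [Nat.centralBinom_eq_two_mul_choose] at h
    rw [show 2 * m / 2 = m by omega, pow_mul, show 4 ^ 2 = 16 by norm_num]
    nlinarith
  · have h := centralBinom_sq_le (m + 1)
    have h2 : Nat.centralBinom (m + 1) = 2 * (2 * m + 1).choose m := by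
      rw [Nat.centralBinom_eq_two_mul_choose, show 2 * (m + 1) = 2 * m + 1 + 1 by ring,
        Nat.choose_succ_succ, Nat.choose_symm_half, two_mul ((2 * m + 1).choose m)]
    rw [h2] at h
    rw [show (2 * m + 1) / 2 = m by omega, pow_succ 4, pow_mul, show 4 ^ 2 = 16 by norm_num]
    rw [pow_succ 16] at h
    nlinarith [Nat.zero_le (((2 * m + 1).choose m) ^ 2)]

/-- the fraction of the most popular subset sum -/
noncomputable def beta (k : ℕ) : ℝ := (k.choose (k / 2) : ℝ) / 2 ^ k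

theorem beta_nonneg (k : ℕ) : 0 ≤ beta k := by unfold beta; positivity

theorem beta_sq_le (k : ℕ) : beta k ^ 2 ≤ 2 / (3 * k + 2) := by
  unfold beta
  rw [div_pow, div_le_div_iff₀ (by positivity) (by positivity)]
  have h := choose_half_sq_le k
  have h2 : ((k.choose (k / 2) : ℝ)) ^ 2 * (3 * k + 2) ≤ 2 * 4 ^ k := by exact_mod_cast h
  calc _ ≤ 2 * (4 : ℝ) ^ k := h2
    _ = 2 * (2 ^ k) ^ 2 := by rw [← pow_mul, mul_comm k 2, pow_mul]; norm_num

end Pool.Agent.Lib.MP_938ce2_ag_h65
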