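import Mathlib
import Pool.Agent.Lib.MP_938ce2_ag_h65.LO

/-!
Subsets satisfying several linear conditions: conditioning on one more condition.
-/

set_option autoImplicit false

namespace Pool.Agent.Lib.MP_938ce2_ag_h65

open Finset

variable {X : Type} [DecidableEq X]

/-- one more linear condition, with nonzero coefficients on a set `N` which does not matter for the
earlier conditions, cuts the number of subsets by the factor `beta`. -/
theorem card_filter_step (S N : Finset X) (hN : N ⊆ S) (B : Finset (Finset X)) (hB : B ⊆ S.powerset)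
    (hinv : ∀ D ∈ B, ∀ D' ⊆ S, D \ N = D' \ N → D' ∈ B) (f : X → ℤ) (hf : ∀ x ∈ N, f x ≠ 0) (t : ℤ) :
    ((B.filter fun D => ∑ x ∈ D, f x = t).card : ℝ) ≤ beta N.card * B.card := by
  have key : (B.filter fun D => ∑ x ∈ D, f x = t).card * 2 ^ N.card
      ≤ N.card.choose (N.card / 2) * B.card := by
    set I := B.image fun D => D \ N with hI
    have h1 : ∀ R ∈ I, (B.filter fun D => D \ N = R).card = 2 ^ N.card := by
      intro R hR
      obtain ⟨D, hD, rfl⟩ := Finset.mem_image.mp hR
      rw [← Finset.card_powerset]
      refine Finset.card_nbij' (fun D' => D' ∩ N) (fun E => (D \ N) ∪ E) ?_ ?_ ?_ ?_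
      · intro D' _
        rw [Finset.mem_coe, Finset.mem_powerset]
        exact Finset.inter_subset_right
      · intro E hE
        rw [Finset.mem_coe, Finset.mem_powerset] at hE
        rw [Finset.mem_coe, Finset.mem_filter]
        have h2 : ((D \ N) ∪ E) \ N = D \ N := by
          ext x
          simp only [Finset.mem_sdiff, Finset.mem_union]
          constructor
          · rintro ⟨h3 | h3, h4⟩
            · exact h3
            · exact absurd (hE h3) h4
          · intro h3
            exact ⟨Or.inl h3, h3.2⟩
        refine ⟨hinv D hD _ ?_ h2.symm, h2⟩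
        refine Finset.union_subset (Finset.sdiff_subset.trans (Finset.mem_powerset.mp (hB hD))) ?_
        exact hE.trans hN
      · intro D' hD'
        rw [Finset.mem_coe, Finset.mem_filter] at hD'
        dsimp only
        rw [← hD'.2, Finset.sdiff_union_inter]
      · intro E hE
        rw [Finset.mem_coe, Finset.mem_powerset] at hE
        dsimp only
        ext x
        simp only [Finset.mem_inter, Finset.mem_union, Finset.mem_sdiff]
        constructor
        · rintro ⟨h3 | h3, h4⟩
          · exact absurd h4 h3.2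
          · exact h3
        · intro h3
          exact ⟨Or.inr h3, hE h3⟩
    have h2 : ∀ R ∈ I, ((B.filter fun D => ∑ x ∈ D, f x = t).filter fun D => D \ N = R).card
        ≤ N.card.choose (N.card / 2) := by
      intro R _
      refine le_trans ?_ (card_subset_sum_le N f hf (t - ∑ x ∈ R, f x))
      refine Finset.card_le_card_of_injOn (fun D => D ∩ N) ?_ ?_
      · intro D hD
        rw [Finset.mem_coe, Finset.mem_filter, Finset.mem_filter] at hD
        rw [Finset.mem_coe, Finset.mem_filter, Finset.mem_powerset]
        refine ⟨Finset.inter_subset_right, ?_⟩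
        have h3 : ∑ x ∈ D, f x = ∑ x ∈ D \ N, f x + ∑ x ∈ D ∩ N, f x := by
          rw [← Finset.sum_union (Finset.disjoint_sdiff_inter D N), Finset.sdiff_union_inter]
        rw [hD.2] at h3
        have h4 := hD.1.2
        dsimp only
        linarith
      · intro D hD D' hD' h
        rw [Finset.mem_coe, Finset.mem_filter] at hD hD'
        dsimp only at h
        rw [← Finset.sdiff_union_inter D N, ← Finset.sdiff_union_inter D' N, hD.2, hD'.2, h]
    have h3 : (B.filter fun D => ∑ x ∈ D, f x = t).card
        = ∑ R ∈ I, ((B.filter fun D => ∑ x ∈ D, f x = t).filter fun D => D \ N = R).card := by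
      apply Finset.card_eq_sum_card_fiberwise
      intro D hD
      exact Finset.mem_image_of_mem _ (Finset.mem_of_mem_filter D hD)
    have h4 : B.card = ∑ R ∈ I, (B.filter fun D => D \ N = R).card := by
      apply Finset.card_eq_sum_card_fiberwise
      intro D hD
      exact Finset.mem_image_of_mem _ hD
    rw [h3, h4, Finset.sum_congr rfl h1, Finset.sum_const, Finset.sum_mul]
    calc ∑ R ∈ I, ((B.filter fun D => ∑ x ∈ D, f x = t).filter fun D => D \ N = R).card * 2 ^ N.card
        ≤ ∑ R ∈ I, N.card.choose (N.card / 2) * 2 ^ N.card :=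
          Finset.sum_le_sum fun R hR => Nat.mul_le_mul_right _ (h2 R hR)
      _ = _ := by rw [Finset.sum_const, smul_eq_mul, smul_eq_mul]; ring
  unfold beta
  rw [div_mul_eq_mul_div, le_div_iff₀ (by positivity)]
  exact_mod_cast key

variable {Γ : Type} [Group Γ] [Fintype Γ] [DecidableEq Γ] [MulAction Γ X] [Fintype X]

omit [DecidableEq Γ] in
/-- the number of group elements moving `x` to a point of the set `U` of its orbit -/
theorem card_mul_orbit (x : X) (O U : Finset X) (hO : ∀ y, y ∈ O ↔ y ∈ MulAction.orbit Γ x)
    (hU : U ⊆ O) : (Finset.univ.filter fun γ : Γ => γ • x ∈ U).card * O.card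
      = U.card * Fintype.card Γ := by
  classical
  have h1 : ∀ y ∈ U, (Finset.univ.filter fun γ : Γ => γ • x = y).card
      = Fintype.card (MulAction.stabilizer Γ x) := by
    intro y hy
    obtain ⟨γ₀, rfl⟩ := (hO y).mp (hU hy)
    rw [← Finset.card_univ (α := MulAction.stabilizer Γ x)]
    symm
    refine Finset.card_nbij' (fun σ => γ₀ * (σ : Γ))
      (fun γ => if h : γ₀⁻¹ * γ ∈ MulAction.stabilizer Γ x then ⟨γ₀⁻¹ * γ, h⟩ else 1) ?_ ?_ ?_ ?_
    · intro σ _
      rw [Finset.mem_coe, Finset.mem_filter]
      refine ⟨Finset.mem_univ _, ?_⟩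
      have := σ.2
      rw [MulAction.mem_stabilizer_iff] at this
      dsimp only
      rw [mul_smul, this]
    · intro γ _
      exact Finset.mem_coe.mpr (Finset.mem_univ _)
    · intro σ _
      dsimp only
      rw [dif_pos (by rw [inv_mul_cancel_left]; exact σ.2)]
      ext
      simp
    · intro γ hγ
      rw [Finset.mem_coe, Finset.mem_filter] at hγ
      have h2 : γ₀⁻¹ * γ ∈ MulAction.stabilizer Γ x := by
        rw [MulAction.mem_stabilizer_iff, mul_smul, hγ.2, inv_smul_smul]
      dsimp only
      rw [dif_pos h2]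
      simp
  have h2 : (Finset.univ.filter fun γ : Γ => γ • x ∈ U).card
      = U.card * Fintype.card (MulAction.stabilizer Γ x) := by
    rw [Finset.card_eq_sum_card_fiberwise (f := fun γ : Γ => γ • x) (t := U)]
    · rw [← smul_eq_mul, ← Finset.sum_const]
      refine Finset.sum_congr rfl fun y hy => ?_
      rw [← h1 y hy]
      congr 1
      ext γ
      simp only [Finset.mem_filter, Finset.mem_univ, true_and]
      exact ⟨fun h => h.2, fun h => ⟨by rw [h]; exact hy, h⟩⟩
    · intro γ hγ
      exact (Finset.mem_filter.mp hγ).2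
  have h3 : O.card = Fintype.card (MulAction.orbit Γ x) := by
    rw [Fintype.card_of_subtype O hO]
  rw [h2, mul_assoc, mul_comm (Fintype.card (MulAction.stabilizer Γ x)), h3,
    MulAction.card_orbit_mul_card_stabilizer_eq_card_group]

/-- some translate of `U` has at least half of its points outside a set which covers at most half of
the orbit -/
theorem exists_translate (O U C : Finset X) (x₀ : X)
    (hO : ∀ y, y ∈ O ↔ y ∈ MulAction.orbit Γ x₀) (hU : U ⊆ O) (hC : 2 * (C ∩ O).card ≤ O.card) :
    ∃ γ : Γ, U.card ≤ 2 * ((O \ C).filter fun x => γ • x ∈ U).card := by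
  classical
  by_contra hcon
  push Not at hcon
  have hne : (Finset.univ : Finset Γ).Nonempty := ⟨1, Finset.mem_univ _⟩
  have h1 : ∑ γ : Γ, 2 * ((O \ C).filter fun x => γ • x ∈ U).card < ∑ γ : Γ, U.card :=
    Finset.sum_lt_sum_of_nonempty hne fun γ _ => hcon γ
  rw [Finset.sum_const, Finset.card_univ, smul_eq_mul, ← Finset.mul_sum] at h1
  have h2 : ∑ γ : Γ, ((O \ C).filter fun x => γ • x ∈ U).card
      = ∑ x ∈ O \ C, (Finset.univ.filter fun γ : Γ => γ • x ∈ U).card := by
    simp only [Finset.card_filter]
    exact Finset.sum_comm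
  have hO' : ∀ x ∈ O \ C, ∀ y, y ∈ O ↔ y ∈ MulAction.orbit Γ x := by
    intro x hx y
    have h3 : x ∈ MulAction.orbit Γ x₀ := (hO x).mp (Finset.mem_sdiff.mp hx).1
    rw [hO y, MulAction.orbit_eq_iff.mpr h3]
  have h3 : (∑ γ : Γ, ((O \ C).filter fun x => γ • x ∈ U).card) * O.card
      = (O \ C).card * (U.card * Fintype.card Γ) := by
    rw [h2, Finset.sum_mul, Finset.sum_congr rfl fun x hx => card_mul_orbit x O U (hO' x hx) hU,
      Finset.sum_const, smul_eq_mul]
  have h4 : O.card ≤ 2 * (O \ C).card := by
    have := Finset.card_sdiff_add_card_inter O C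
    rw [Finset.inter_comm] at this
    omega
  have hOpos : 0 < O.card := Finset.card_pos.mpr ⟨x₀, (hO x₀).mpr (MulAction.mem_orbit_self x₀)⟩
  have h5 : 2 * (∑ γ : Γ, ((O \ C).filter fun x => γ • x ∈ U).card) * O.card
      < Fintype.card Γ * U.card * O.card := Nat.mul_lt_mul_of_pos_right h1 hOpos
  have h6 : Fintype.card Γ * U.card * O.card ≤ 2 * ((O \ C).card * (U.card * Fintype.card Γ)) := by
    calc Fintype.card Γ * U.card * O.card ≤ Fintype.card Γ * U.card * (2 * (O \ C).card) :=
          Nat.mul_le_mul_left _ h4
      _ = _ := by ring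
  rw [mul_assoc, h3] at h5
  omega

end Pool.Agent.Lib.MP_938ce2_ag_h65
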