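import Mathlib
import Pool.Agent.Lib.MP_938ce2_ag_h65.Select

/-!
The number of subsets of a CM type orthogonal to all translates of an odd function.
-/

set_option autoImplicit false
set_option linter.unusedSectionVars false

namespace Pool.Agent.Lib.MP_938ce2_ag_h65

open Finset

variable {X : Type} [DecidableEq X] [Fintype X] {Γ : Type} [Group Γ] [Fintype Γ] [DecidableEq Γ]
  [MulAction Γ X]

/-- a stable set has twice as many points as its part in a CM type -/
theorem card_inter_type (c : Γ) (hc2 : ∀ x : X, c • c • x = x) (S M : Finset X)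
    (hS : ∀ x, x ∈ S ↔ c • x ∉ S) (hM : ∀ x ∈ M, c • x ∈ M) : 2 * (M ∩ S).card = M.card := by
  have h1 : (M ∩ S).card = (M \ S).card := by
    refine Finset.card_nbij' (fun x => c • x) (fun x => c • x) ?_ ?_ ?_ ?_
    · intro x hx
      rw [Finset.mem_coe, Finset.mem_inter] at hx
      rw [Finset.mem_coe, Finset.mem_sdiff]
      exact ⟨hM x hx.1, (hS x).mp hx.2⟩
    · intro x hx
      rw [Finset.mem_coe, Finset.mem_sdiff] at hx
      rw [Finset.mem_coe, Finset.mem_inter]
      refine ⟨hM x hx.1, (hS _).mpr ?_⟩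
      rw [hc2]
      exact hx.2
    · intro x _; exact hc2 x
    · intro x _; exact hc2 x
  have h2 := Finset.card_sdiff_add_card_inter M S
  omega

theorem beta_le_of_card {m k : ℕ} (h : m ≤ 4 * k) : beta k ≤ (1 + 3 * (m : ℝ) / 8) ^ (-(1 / 2) : ℝ) := by
  have hm : (m : ℝ) ≤ 4 * k := by exact_mod_cast h
  have hpos : (0 : ℝ) < 1 + 3 * (m : ℝ) / 8 := by positivity
  have h1 : beta k ^ 2 ≤ (1 + 3 * (m : ℝ) / 8)⁻¹ := by
    refine (beta_sq_le k).trans ?_
    rw [← one_div, div_le_div_iff₀ (by positivity) hpos]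
    linarith
  have h2 : ((1 + 3 * (m : ℝ) / 8) ^ (-(1 / 2) : ℝ)) ^ 2 = (1 + 3 * (m : ℝ) / 8)⁻¹ := by
    rw [← Real.rpow_natCast, ← Real.rpow_mul hpos.le]
    norm_num
    rw [Real.rpow_neg_one]
  rw [← h2] at h1
  exact le_of_sq_le_sq h1 (Real.rpow_nonneg hpos.le _)

variable (c : Γ) (hcen : ∀ γ, γ * c = c * γ) (hc2 : ∀ x : X, c • c • x = x)
  (S : Finset X) (hS : ∀ x, x ∈ S ↔ c • x ∉ S) (u : X → ℤ) (hu : ∀ x, u (c • x) = - u x)
  (O : Finset X) (x₀ : X) (hO : ∀ y, y ∈ O ↔ y ∈ MulAction.orbit Γ x₀) (t : Γ → ℤ)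

include hcen hc2 hS hu hO

theorem greedy (β : ℝ) (hβ : ∀ k : ℕ, (O.filter fun x => u x ≠ 0).card ≤ 4 * k → beta k ≤ β)
    (w : ℕ) (hw : ∀ w' < w, 2 * (w' * (O.filter fun x => u x ≠ 0).card) ≤ O.card) :
    ∃ T : Finset Γ, T.card ≤ w ∧
      ((S.powerset.filter fun D => ∀ γ ∈ T, ∑ x ∈ D, u (γ • x) = t γ).card : ℝ)
        ≤ β ^ w * 2 ^ S.card := by
  induction w with
  | zero =>
    refine ⟨∅, le_rfl, ?_⟩
    rw [pow_zero, one_mul]
    have := Finset.card_filter_le S.powerset
      (fun D => ∀ γ ∈ (∅ : Finset Γ), ∑ x ∈ D, u (γ • x) = t γ)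
    rw [Finset.card_powerset] at this
    exact_mod_cast this
  | succ w ih =>
    obtain ⟨T, hT, hcount⟩ := ih fun w' hw' => hw w' (by omega)
    set U := O.filter fun x => u x ≠ 0 with hU
    have hUO : U ⊆ O := Finset.filter_subset _ _
    have hmemO : ∀ (γ : Γ) (x : X), x ∈ O → γ • x ∈ O := by
      intro γ x hx
      rw [hO] at hx ⊢
      obtain ⟨γ₀, rfl⟩ := hx
      exact ⟨γ * γ₀, mul_smul γ γ₀ x₀⟩
    have hUc : ∀ x ∈ U, c • x ∈ U := by
      intro x hx
      rw [hU, Finset.mem_filter] at hx ⊢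
      refine ⟨hmemO c x hx.1, ?_⟩
      rw [hu]
      exact neg_ne_zero.mpr hx.2
    set C := T.biUnion fun γ => O.filter fun x => γ • x ∈ U with hC
    have hcardC : C.card ≤ w * U.card := by
      refine Finset.card_biUnion_le.trans ?_
      refine (Finset.sum_le_card_nsmul _ _ U.card fun γ _ => ?_).trans ?_
      · refine Finset.card_le_card_of_injOn (fun x => γ • x) ?_ ?_
        · intro x hx
          exact (Finset.mem_filter.mp hx).2
        · intro x _ y _ h
          exact smul_left_cancel γ h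
      · rw [smul_eq_mul]
        exact Nat.mul_le_mul_right _ hT
    have hCO : 2 * (C ∩ O).card ≤ O.card := by
      have h1 := hw w (Nat.lt_succ_self w)
      have h2 := Finset.card_le_card (Finset.inter_subset_left : C ∩ O ⊆ C)
      calc 2 * (C ∩ O).card ≤ 2 * (w * U.card) := Nat.mul_le_mul_left _ (h2.trans hcardC)
        _ ≤ O.card := h1
    obtain ⟨γ, hγ⟩ := exists_translate O U C x₀ hO hUO hCO
    set M := (O \ C).filter fun x => γ • x ∈ U with hM
    have hMc : ∀ x ∈ M, c • x ∈ M := by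
      intro x hx
      rw [hM, Finset.mem_filter, Finset.mem_sdiff] at hx ⊢
      refine ⟨⟨hmemO c x hx.1.1, ?_⟩, ?_⟩
      · intro hcx
        apply hx.1.2
        rw [hC, Finset.mem_biUnion] at hcx ⊢
        obtain ⟨γ', hγ', h1⟩ := hcx
        refine ⟨γ', hγ', ?_⟩
        rw [Finset.mem_filter] at h1 ⊢
        refine ⟨hx.1.1, ?_⟩
        have h2 := hUc _ h1.2
        rw [← mul_smul, ← mul_smul, ← hcen, mul_smul, mul_smul, hc2] at h2
        exact h2
      · have h2 := hUc _ hx.2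
        rw [← mul_smul, ← hcen, mul_smul] at h2
        exact h2
    have hcardM := card_inter_type c hc2 S M hS hMc
    set N := M ∩ S with hN
    have hNS : N ⊆ S := Finset.inter_subset_right
    have hUN : U.card ≤ 4 * N.card := by omega
    have hzero : ∀ γ' ∈ T, ∀ x ∈ N, u (γ' • x) = 0 := by
      intro γ' hγ' x hx
      have hx1 : x ∈ M := (Finset.mem_inter.mp hx).1
      rw [hM, Finset.mem_filter, Finset.mem_sdiff] at hx1
      by_contra hne
      apply hx1.1.2
      rw [hC, Finset.mem_biUnion]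
      refine ⟨γ', hγ', Finset.mem_filter.mpr ⟨hx1.1.1, ?_⟩⟩
      rw [hU, Finset.mem_filter]
      exact ⟨hmemO γ' x hx1.1.1, hne⟩
    set B := S.powerset.filter fun D => ∀ γ ∈ T, ∑ x ∈ D, u (γ • x) = t γ with hB
    refine ⟨insert γ T, (Finset.card_insert_le γ T).trans (by omega), ?_⟩
    have hfilter : (S.powerset.filter fun D => ∀ γ' ∈ insert γ T, ∑ x ∈ D, u (γ' • x) = t γ')
        = B.filter fun D => ∑ x ∈ D, u (γ • x) = t γ := by
      ext D
      simp only [hB, Finset.mem_filter, Finset.forall_mem_insert]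
      tauto
    rw [hfilter]
    have hstep := card_filter_step S N hNS B (Finset.filter_subset _ _) ?_ (fun x => u (γ • x)) ?_ (t γ)
    · calc ((B.filter fun D => ∑ x ∈ D, u (γ • x) = t γ).card : ℝ) ≤ beta N.card * B.card := hstep
        _ ≤ β * (β ^ w * 2 ^ S.card) := by
            have h1 := hβ N.card hUN
            have h2 := beta_nonneg N.card
            exact mul_le_mul h1 hcount (Nat.cast_nonneg _) (h2.trans h1)
        _ = β ^ (w + 1) * 2 ^ S.card := by ring
    · intro D hD D' hD' hDD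
      rw [hB, Finset.mem_filter, Finset.mem_powerset] at hD ⊢
      refine ⟨hD', fun γ' hγ' => ?_⟩
      rw [← hD.2 γ' hγ']
      have h1 : ∀ E : Finset X, ∑ x ∈ E, u (γ' • x) = ∑ x ∈ E \ N, u (γ' • x) := by
        intro E
        rw [← Finset.sum_sdiff (Finset.inter_subset_left : E ∩ N ⊆ E), Finset.sdiff_inter_self_left,
          Finset.sum_eq_zero fun x hx => hzero γ' hγ' x (Finset.mem_inter.mp hx).2, add_zero]
      rw [h1 D', h1 D, hDD]
    · intro x hx
      have hx1 : x ∈ M := (Finset.mem_inter.mp hx).1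
      rw [hM, Finset.mem_filter] at hx1
      exact (Finset.mem_filter.mp hx1.2).2

/-- the bound for the number of subsets orthogonal to all translates -/
theorem card_orthogonal_le (hx₀ : u x₀ ≠ 0) {h J : ℕ} (hJ : (O.filter fun x => u x ≠ 0).card ≤ 4 * J)
    (hh : 2 * h ≤ O.card) :
    ((S.powerset.filter fun D => ∀ γ : Γ, ∑ x ∈ D, u (γ • x) = t γ).card : ℝ)
      ≤ ((J : ℝ) + 1) ^ (-(h : ℝ) / (8 * J)) * 2 ^ S.card := by
  set m := (O.filter fun x => u x ≠ 0).card with hm
  have hx₀O : x₀ ∈ O := (hO x₀).mpr (MulAction.mem_orbit_self x₀)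
  have hmpos : 0 < m := Finset.card_pos.mpr ⟨x₀, Finset.mem_filter.mpr ⟨hx₀O, hx₀⟩⟩
  have hJpos : 0 < J := by omega
  set b : ℝ := 1 + 3 * (m : ℝ) / 8 with hb
  have hbpos : 0 < b := by positivity
  have hb1 : 1 ≤ b := by
    rw [hb]
    have : (0 : ℝ) ≤ 3 * (m : ℝ) / 8 := by positivity
    linarith
  set w := O.card / (2 * m) + 1 with hw
  obtain ⟨T, -, hcount⟩ := greedy c hcen hc2 S hS u hu O x₀ hO t (b ^ (-(1 / 2) : ℝ))
    (fun k hk => beta_le_of_card hk) w (by
      intro w' hw'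
      rw [← hm]
      have h1 : w' ≤ O.card / (2 * m) := by omega
      have h2 : w' * (2 * m) ≤ O.card := (Nat.le_div_iff_mul_le (by omega)).mp h1
      linarith)
  have h1 : ((S.powerset.filter fun D => ∀ γ : Γ, ∑ x ∈ D, u (γ • x) = t γ).card : ℝ)
      ≤ (S.powerset.filter fun D => ∀ γ ∈ T, ∑ x ∈ D, u (γ • x) = t γ).card := by
    have : (S.powerset.filter fun D => ∀ γ : Γ, ∑ x ∈ D, u (γ • x) = t γ)
        ⊆ (S.powerset.filter fun D => ∀ γ ∈ T, ∑ x ∈ D, u (γ • x) = t γ) := by
      intro D hD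
      rw [Finset.mem_filter] at hD ⊢
      exact ⟨hD.1, fun γ _ => hD.2 γ⟩
    exact_mod_cast Finset.card_le_card this
  refine h1.trans (hcount.trans ?_)
  refine mul_le_mul_of_nonneg_right ?_ (by positivity)
  -- now the real inequality
  have hwr : (O.card : ℝ) / (2 * m) ≤ w := by
    have h2 : O.card < (2 * m) * w := by
      rw [hw]
      exact Nat.lt_mul_div_succ O.card (by omega)
    have h3 : (O.card : ℝ) < (2 * m) * w := by exact_mod_cast h2
    rw [div_le_iff₀ (by positivity)]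
    linarith
  have hhr : 2 * (h : ℝ) ≤ O.card := by exact_mod_cast hh
  have hmr : (0 : ℝ) < m := by exact_mod_cast hmpos
  have hJr : (0 : ℝ) < J := by exact_mod_cast hJpos
  have hmJ : (m : ℝ) ≤ 4 * J := by exact_mod_cast hJ
  have hw2 : (h : ℝ) / m ≤ w := by
    refine le_trans ?_ hwr
    rw [div_le_div_iff₀ hmr (by positivity)]
    nlinarith
  set p : ℝ := 4 * J / m with hp
  have hp1 : 1 ≤ p := by
    rw [hp, le_div_iff₀ hmr]
    linarith
  have hbern : (J : ℝ) + 1 ≤ b ^ p := by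
    have h2 := one_add_mul_self_le_rpow_one_add (s := 3 * (m : ℝ) / 8) (by
      have : (0 : ℝ) ≤ 3 * (m : ℝ) / 8 := by positivity
      linarith) hp1
    have h3 : p * (3 * (m : ℝ) / 8) = 3 * J / 2 := by
      rw [hp]
      field_simp
      ring
    rw [h3] at h2
    refine le_trans ?_ h2
    linarith
  calc (b ^ (-(1 / 2) : ℝ)) ^ w = b ^ (-(1 / 2) * (w : ℝ)) := by
        rw [← Real.rpow_natCast, ← Real.rpow_mul hbpos.le]
    _ ≤ b ^ (-(1 / 2) * ((h : ℝ) / m)) := by
        apply Real.rpow_le_rpow_of_exponent_le hb1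
        linarith
    _ = (b ^ p) ^ (-(h : ℝ) / (8 * J)) := by
        rw [← Real.rpow_mul hbpos.le]
        congr 1
        rw [hp]
        field_simp
        ring
    _ ≤ ((J : ℝ) + 1) ^ (-(h : ℝ) / (8 * J)) := by
        apply Real.rpow_le_rpow_of_nonpos (by positivity) hbern
        rw [neg_div]
        exact neg_nonpos.mpr (by positivity)

end Pool.Agent.Lib.MP_938ce2_ag_h65
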