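import Mathlib
import Pool.Agent.Lib.MP_938ce2_ag_h60.GSet
import Pool.Agent.Lib.MP_938ce2_ag_h65.Defs
import Pool.Agent.Lib.MP_938ce2_ag_h65.Greedy

/-!
The number of CM types with exceptional Tate classes of bounded codimension.
-/

set_option autoImplicit false
set_option linter.unusedSectionVars false

namespace Pool.Agent.Lib.MP_938ce2_ag_h65

open Module Finset
open Pool.Agent.Lib.MP_938ce2_ag_h85 (HasDegree ActsBy GeneratedBy Coh actH1 mB mult
  mem_adjoin_of_coord)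
open Pool.Agent.Lib.MP_938ce2_ag_h60 (CMType TateClass TateG TateG.coord mem_adjoin_of_symm
  card_cmType)

section

variable {Γ : Type} [Group Γ] {X : Type} [MulAction Γ X] [DecidableEq X]

lemma smul_smul_self {c : Γ} (hc2 : c * c = 1) (x : X) : c • c • x = x := by
  rw [smul_smul, hc2, one_smul]

/-- the elementary odd function of a point -/
def elem (c : Γ) (y x : X) : ℤ := (if y = x then 1 else 0) - (if c • y = x then 1 else 0)

/-- the odd function of a tuple of points -/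
def vec (c : Γ) {k : ℕ} (τ : Fin k → X) (x : X) : ℤ := ∑ i, elem c (τ i) x

lemma elem_odd {c : Γ} (hc2 : c * c = 1) (y x : X) : elem c y (c • x) = - elem c y x := by
  unfold elem
  have h1 : (y = c • x) ↔ (c • y = x) := by
    constructor
    · rintro rfl; exact smul_smul_self hc2 x
    · rintro rfl; exact (smul_smul_self hc2 y).symm
  have h2 : (c • y = c • x) ↔ (y = x) := by rw [smul_left_cancel_iff]
  simp only [h1, h2]
  ring

lemma elem_smul {c : Γ} (hc2 : c * c = 1) (y x : X) : elem c (c • y) x = - elem c y x := by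
  unfold elem
  rw [smul_smul_self hc2]
  ring

lemma vec_odd {c : Γ} (hc2 : c * c = 1) {k : ℕ} (τ : Fin k → X) (x : X) :
    vec c τ (c • x) = - vec c τ x := by
  unfold vec
  rw [← Finset.sum_neg_distrib]
  exact Finset.sum_congr rfl fun i _ => elem_odd hc2 _ _

lemma card_supp_vec [Fintype X] (c : Γ) {k : ℕ} (τ : Fin k → X) (O : Finset X) :
    (O.filter fun x => vec c τ x ≠ 0).card ≤ 2 * k := by
  have h1 : (O.filter fun x => vec c τ x ≠ 0)
      ⊆ (Finset.univ : Finset (Fin k)).biUnion fun i => {τ i, c • τ i} := by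
    intro x hx
    rw [Finset.mem_filter] at hx
    by_contra hcon
    apply hx.2
    unfold vec
    refine Finset.sum_eq_zero fun i _ => ?_
    simp only [Finset.mem_biUnion, Finset.mem_univ, true_and, Finset.mem_insert,
      Finset.mem_singleton, not_exists, not_or] at hcon
    have h2 := hcon i
    unfold elem
    rw [if_neg (fun h => h2.1 h.symm), if_neg (fun h => h2.2 h.symm), sub_zero]
  refine (Finset.card_le_card h1).trans (Finset.card_biUnion_le.trans ?_)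
  refine (Finset.sum_le_card_nsmul _ _ 2 fun i _ => Finset.card_le_two).trans ?_
  rw [Finset.card_univ, Fintype.card_fin, smul_eq_mul, mul_comm]

lemma vec_cons {c : Γ} (hc2 : c * c = 1) (x₀ : X) {k : ℕ} (τ : Fin k → X) :
    vec c (Fin.cons x₀ (Fin.cons (c • x₀) τ) : Fin (k + 2) → X) = vec c τ := by
  funext x
  unfold vec
  rw [Fin.sum_univ_succ, Fin.sum_univ_succ]
  simp only [Fin.cons_zero, Fin.cons_succ]
  rw [elem_smul hc2]
  ring

/-- a tuple may be lengthened by two without changing its odd function -/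
lemma vec_pad {c : Γ} (hc2 : c * c = 1) (x₀ : X) {k : ℕ} (τ : Fin k → X) (m : ℕ) :
    ∃ τ' : Fin (k + 2 * m) → X, vec c τ' = vec c τ := by
  induction m with
  | zero => exact ⟨τ, rfl⟩
  | succ m ih =>
    obtain ⟨τ', h⟩ := ih
    exact ⟨(Fin.cons x₀ (Fin.cons (c • x₀) τ') : Fin (k + 2 * m + 2) → X),
      (vec_cons hc2 x₀ τ').trans h⟩

lemma vec_pad' {c : Γ} (hc2 : c * c = 1) (x₀ : X) {j J : ℕ} (hj : j ≤ J) (τ : Fin (2 * j) → X) :
    ∃ τ' : Fin (2 * J) → X, vec c τ' = vec c τ := by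
  obtain ⟨m, rfl⟩ := Nat.exists_eq_add_of_le hj
  rw [mul_add]
  exact vec_pad hc2 x₀ τ m

/-- the odd part of the multiplicities of a monomial -/
lemma exists_vec_of_monomial {c : Γ} (hc2 : c * c = 1) {I : Type} [LinearOrder I] [Fintype I]
    (π : I → X) (s : Finset I) {k : ℕ} (hs : s.card = k) :
    ∃ τ : Fin k → X, ∀ x, vec c τ x = (mult π s x : ℤ) - mult π s (c • x) := by
  subst hs
  refine ⟨fun i => π (s.equivFin.symm i), fun x => ?_⟩
  unfold vec
  have h1 : ∑ i, elem c (π (s.equivFin.symm i)) x = ∑ p ∈ s, elem c (π p) x := by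
    rw [← Finset.sum_coe_sort s fun p => elem c (π p) x]
    exact Equiv.sum_comp s.equivFin.symm fun p : s => elem c (π p) x
  rw [h1]
  unfold elem mult
  rw [Finset.sum_sub_distrib, Finset.card_filter, Finset.card_filter]
  push_cast
  congr 1
  refine Finset.sum_congr rfl fun p _ => ?_
  have h2 : (c • π p = x) ↔ (π p = c • x) := by
    constructor
    · rintro rfl; exact (smul_smul_self hc2 _).symm
    · intro h; rw [h]; exact smul_smul_self hc2 x
  simp only [h2]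

end

section

variable {Γ : Type} [Group Γ] [Fintype Γ] {X : Type} [MulAction Γ X] [Fintype X]
variable {c : Γ} {Φ : Finset X}

/-- a CM type with an exceptional Tate class of codimension at most `J` is orthogonal to all
translates of the odd function of a tuple -/
theorem exists_vec_of_not_generated [DecidableEq X] (hcc : ∀ γ : Γ, c * γ = γ * c) (hc2 : c * c = 1)
    (hcx : ∀ x : X, c • x ≠ x) (hΦ : CMType c Φ) {J : ℕ} (hbad : ¬ GeneratedUpTo Γ J Φ) :
    ∃ τ : Fin (2 * J) → X, (∃ x, vec c τ x ≠ 0) ∧ ∀ γ : Γ, ∑ φ ∈ Φ, vec c τ (γ • φ) = 0 := by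
  by_contra hcon
  apply hbad
  intro F _ _ n j x hj hx
  let _ : LinearOrder (Fin n × X) :=
    LinearOrder.lift' (Fintype.equivFin (Fin n × X)) (Equiv.injective _)
  have hx' : TateG Γ F (Prod.snd : Fin n × X → X) Φ j x := hx
  change x ∈ Algebra.adjoin F {y | TateG Γ F (Prod.snd : Fin n × X → X) Φ 1 y}
  refine mem_adjoin_of_coord fun s hs => ?_
  refine mem_adjoin_of_symm hcc hc2 hcx hΦ _ s rfl fun σ => ?_
  by_contra hne
  apply hcon
  -- the cardinality of `s`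
  have hcard : s.card = 2 * j := by
    have h1 := Pool.Agent.Lib.MP_938ce2_ag_h60.sum_type hc2 hΦ
      (fun y => mult (Prod.snd : Fin n × X → X) s y)
    have h2 : ∑ φ ∈ Φ, mult (Prod.snd : Fin n × X → X) s φ = j := by
      have := hx'.coord hs 1
      simpa using this
    have h3 : ∑ φ ∈ Φ, mult (Prod.snd : Fin n × X → X) s (c • φ) = j := hx'.coord hs c
    have h4 : ∑ y, mult (Prod.snd : Fin n × X → X) s y = s.card := by
      have := Pool.Agent.Lib.MP_938ce2_ag_h60.sum_mult (π := (Prod.snd : Fin n × X → X)) s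
        Finset.univ (1 : Γ)
      simpa using this
    rw [h2, h3, h4] at h1
    omega
  obtain ⟨τ, hτ⟩ := exists_vec_of_monomial (c := c) hc2 (Prod.snd : Fin n × X → X) s hcard
  obtain ⟨τ', hτ'⟩ := vec_pad' hc2 σ hj τ
  refine ⟨τ', ⟨σ, ?_⟩, fun γ => ?_⟩
  · rw [hτ', hτ]
    intro h
    apply hne
    omega
  · simp only [hτ', hτ]
    rw [Finset.sum_sub_distrib]
    have h2 := hx'.coord hs γ
    have h3 := hx'.coord hs (c * γ)
    have h4 : ∑ φ ∈ Φ, (mult (Prod.snd : Fin n × X → X) s (γ • φ) : ℤ) = j := by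
      exact_mod_cast h2
    have h5 : ∑ φ ∈ Φ, (mult (Prod.snd : Fin n × X → X) s (c • γ • φ) : ℤ) = j := by
      have : ∑ φ ∈ Φ, mult (Prod.snd : Fin n × X → X) s (c • γ • φ) = j := by
        rw [← h3]
        exact Finset.sum_congr rfl fun φ _ => by rw [smul_smul]
      exact_mod_cast this
    rw [h4, h5, sub_self]

/-- sums of an odd function over a CM type in terms of a reference type -/
lemma sum_eq_sum_ref [DecidableEq X] (hc2 : c * c = 1) {Φ₀ : Finset X} (hΦ₀ : CMType c Φ₀)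
    (hΦ : CMType c Φ) (f : X → ℤ) (hf : ∀ x, f (c • x) = - f x) :
    ∑ φ ∈ Φ, f φ = ∑ φ ∈ Φ₀, f φ - 2 * ∑ φ ∈ Φ₀ \ Φ, f φ := by
  have h1 : ∑ φ ∈ Φ \ Φ₀, f φ = - ∑ φ ∈ Φ₀ \ Φ, f φ := by
    rw [← Finset.sum_neg_distrib]
    refine Finset.sum_nbij' (fun σ => c • σ) (fun σ => c • σ) ?_ ?_ ?_ ?_ ?_
    · intro σ hσ
      rw [Finset.mem_sdiff] at hσ ⊢
      refine ⟨(hΦ₀ _).mpr ?_, fun h => (hΦ σ).mp hσ.1 h⟩
      rw [smul_smul_self hc2]
      exact hσ.2
    · intro σ hσ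
      rw [Finset.mem_sdiff] at hσ ⊢
      refine ⟨(hΦ _).mpr ?_, fun h => (hΦ₀ σ).mp hσ.1 h⟩
      rw [smul_smul_self hc2]
      exact hσ.2
    · intro σ _; exact smul_smul_self hc2 σ
    · intro σ _; exact smul_smul_self hc2 σ
    · intro σ _
      rw [hf, neg_neg]
  have h2 : ∑ φ ∈ Φ, f φ = ∑ φ ∈ Φ \ Φ₀, f φ + ∑ φ ∈ Φ ∩ Φ₀, f φ := by
    rw [← Finset.sum_union (Finset.disjoint_sdiff_inter Φ Φ₀), Finset.sdiff_union_inter]
  have h3 : ∑ φ ∈ Φ₀, f φ = ∑ φ ∈ Φ₀ \ Φ, f φ + ∑ φ ∈ Φ₀ ∩ Φ, f φ := by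
    rw [← Finset.sum_union (Finset.disjoint_sdiff_inter Φ₀ Φ), Finset.sdiff_union_inter]
  rw [Finset.inter_comm] at h3
  linarith

/-- the number of CM types orthogonal to all translates of an odd function of small support -/
theorem card_types_orthogonal [DecidableEq X] (hcc : ∀ γ : Γ, c * γ = γ * c) (hc2 : c * c = 1)
    {g h J : ℕ} (hX : Fintype.card X = 2 * g)
    (horb : ∀ x : X, 2 * h ≤ (MulAction.orbit Γ x).ncard) (u : X → ℤ)
    (hu : ∀ x, u (c • x) = - u x) (hu0 : ∃ x, u x ≠ 0)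
    (hsupp : ∀ O : Finset X, (O.filter fun x => u x ≠ 0).card ≤ 4 * J) :
    ({Φ : Finset X | CMType c Φ ∧ ∀ γ : Γ, ∑ φ ∈ Φ, u (γ • φ) = 0}.ncard : ℝ)
      ≤ ((J : ℝ) + 1) ^ (-(h : ℝ) / (8 * J)) * 2 ^ g := by
  classical
  rcases ({Φ : Finset X | CMType c Φ ∧ ∀ γ : Γ, ∑ φ ∈ Φ, u (γ • φ) = 0}).eq_empty_or_nonempty with
    he | ⟨Φ₀, hΦ₀, -⟩
  · rw [he, Set.ncard_empty, Nat.cast_zero]
    positivity
  obtain ⟨x₀, hx₀⟩ := hu0
  set O : Finset X := Finset.univ.filter fun y => y ∈ MulAction.orbit Γ x₀ with hOdef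
  have hO : ∀ y, y ∈ O ↔ y ∈ MulAction.orbit Γ x₀ := fun y => by simp [hOdef]
  have hOcard : 2 * h ≤ O.card := by
    have h1 := horb x₀
    have h2 : (O : Set X) = MulAction.orbit Γ x₀ := by
      ext y
      rw [Finset.mem_coe, hO]
    rw [← h2, Set.ncard_coe_finset] at h1
    exact h1
  have hg : Φ₀.card = g := by
    have := card_cmType hc2 hΦ₀
    omega
  have hmain := card_orthogonal_le c (fun γ => (hcc γ).symm) (fun x => smul_smul_self hc2 x) Φ₀ hΦ₀ u
    hu O x₀ hO (fun γ => (∑ φ ∈ Φ₀, u (γ • φ)) / 2) hx₀ (hsupp O) hOcard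
  rw [hg] at hmain
  refine le_trans ?_ hmain
  have h1 : ({Φ : Finset X | CMType c Φ ∧ ∀ γ : Γ, ∑ φ ∈ Φ, u (γ • φ) = 0}).ncard
      ≤ (Φ₀.powerset.filter fun D => ∀ γ : Γ, ∑ x ∈ D, u (γ • x)
        = (∑ φ ∈ Φ₀, u (γ • φ)) / 2).card := by
    rw [← Set.ncard_coe_finset]
    refine Set.ncard_le_ncard_of_injOn (fun Φ => Φ₀ \ Φ) ?_ ?_ (Finset.finite_toSet _)
    · rintro Φ ⟨hΦ, hγ⟩
      rw [Finset.mem_coe, Finset.mem_filter, Finset.mem_powerset]
      refine ⟨Finset.sdiff_subset, fun γ => ?_⟩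
      have h2 := sum_eq_sum_ref hc2 hΦ₀ hΦ (fun x => u (γ • x)) (fun x => by
        rw [smul_smul, ← hcc, ← smul_smul, hu])
      rw [hγ γ] at h2
      omega
    · rintro Φ ⟨hΦ, -⟩ Φ' ⟨hΦ', -⟩ hEq
      dsimp only at hEq
      have h2 : ∀ x ∈ Φ₀, (x ∈ Φ ↔ x ∈ Φ') := by
        intro x hx
        have h3 := Finset.ext_iff.mp hEq x
        simp only [Finset.mem_sdiff, hx, true_and] at h3
        tauto
      ext x
      by_cases hx : x ∈ Φ₀
      · exact h2 x hx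
      · have hx' : c • x ∈ Φ₀ := by
          rw [hΦ₀, smul_smul_self hc2]
          exact hx
        rw [hΦ x, hΦ' x, h2 _ hx']
  exact_mod_cast h1

/-- **Main theorem.** -/
theorem main_bound (hcc : ∀ γ : Γ, c * γ = γ * c) (hc2 : c * c = 1)
    (hcx : ∀ x : X, c • x ≠ x) {g h J : ℕ} (hX : Fintype.card X = 2 * g)
    (horb : ∀ x : X, 2 * h ≤ (MulAction.orbit Γ x).ncard) :
    ({Φ : Finset X | CMType c Φ ∧ ¬ GeneratedUpTo Γ J Φ}.ncard : ℝ)
      ≤ (2 * (g : ℝ)) ^ (2 * J) * ((J : ℝ) + 1) ^ (-(h : ℝ) / (8 * J)) * 2 ^ g := by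
  classical
  set A : Finset (Fin (2 * J) → X) := Finset.univ.filter fun τ => ∃ x, vec c τ x ≠ 0 with hA
  set B : (Fin (2 * J) → X) → Finset (Finset X) := fun τ =>
    Finset.univ.filter fun Φ => CMType c Φ ∧ ∀ γ : Γ, ∑ φ ∈ Φ, vec c τ (γ • φ) = 0 with hB
  have h1 : {Φ : Finset X | CMType c Φ ∧ ¬ GeneratedUpTo Γ J Φ} ⊆ (A.biUnion B : Finset (Finset X)) := by
    rintro Φ ⟨hΦ, hbad⟩
    obtain ⟨τ, hτ, horth⟩ := exists_vec_of_not_generated hcc hc2 hcx hΦ hbad
    rw [Finset.mem_coe, Finset.mem_biUnion]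
    refine ⟨τ, Finset.mem_filter.mpr ⟨Finset.mem_univ _, hτ⟩, ?_⟩
    exact Finset.mem_filter.mpr ⟨Finset.mem_univ _, hΦ, horth⟩
  have h2 : ({Φ : Finset X | CMType c Φ ∧ ¬ GeneratedUpTo Γ J Φ}.ncard : ℝ)
      ≤ ((A.biUnion B).card : ℝ) := by
    have := Set.ncard_le_ncard h1 (Finset.finite_toSet _)
    rw [Set.ncard_coe_finset] at this
    exact_mod_cast this
  have h3 : ∀ τ ∈ A, ((B τ).card : ℝ) ≤ ((J : ℝ) + 1) ^ (-(h : ℝ) / (8 * J)) * 2 ^ g := by
    intro τ hτ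
    have h4 := card_types_orthogonal hcc hc2 (J := J) hX horb (vec c τ) (fun x => vec_odd hc2 τ x)
      (Finset.mem_filter.mp hτ).2 (fun O => (card_supp_vec c τ O).trans (by omega))
    have h5 : {Φ : Finset X | CMType c Φ ∧ ∀ γ : Γ, ∑ φ ∈ Φ, vec c τ (γ • φ) = 0}
        = (B τ : Set (Finset X)) := by
      ext Φ
      simp [hB]
    rw [h5, Set.ncard_coe_finset] at h4
    exact h4
  have hAcard : (A.card : ℝ) ≤ (2 * (g : ℝ)) ^ (2 * J) := by
    have h4 : A.card ≤ (2 * g) ^ (2 * J) := by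
      refine (Finset.card_filter_le _ _).trans ?_
      rw [Finset.card_univ, Fintype.card_fun, Fintype.card_fin, hX]
    exact_mod_cast h4
  have hpos : (0 : ℝ) ≤ ((J : ℝ) + 1) ^ (-(h : ℝ) / (8 * J)) * 2 ^ g := by positivity
  calc ({Φ : Finset X | CMType c Φ ∧ ¬ GeneratedUpTo Γ J Φ}.ncard : ℝ)
      ≤ ((A.biUnion B).card : ℝ) := h2
    _ ≤ ∑ τ ∈ A, ((B τ).card : ℝ) := by exact_mod_cast Finset.card_biUnion_le
    _ ≤ ∑ _τ ∈ A, ((J : ℝ) + 1) ^ (-(h : ℝ) / (8 * J)) * 2 ^ g := Finset.sum_le_sum h3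
    _ = (A.card : ℝ) * (((J : ℝ) + 1) ^ (-(h : ℝ) / (8 * J)) * 2 ^ g) := by
        rw [Finset.sum_const, nsmul_eq_mul]
    _ ≤ (2 * (g : ℝ)) ^ (2 * J) * (((J : ℝ) + 1) ^ (-(h : ℝ) / (8 * J)) * 2 ^ g) :=
        mul_le_mul_of_nonneg_right hAcard hpos
    _ = _ := by ring

end

end Pool.Agent.Lib.MP_938ce2_ag_h65
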